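import Pool.Agent.Q5.SH.Stm
import Pool.Agent.Q176.SG.XF
import Pool.Agent.Q53.EX.Tw0
import Pool.Agent.Q53.EX.UnrE
import Pool.Agent.Q275.EX.Res
import Pool.Agent.Q111.EX.Unr
import Pool.Agent.Q111.EX.Fin
import Pool.Agent.Q38.EX.NrmB
import Pool.Agent.Q285.EX.Ncg

/-!
# Project SH (helper5), job SH-BC: base change to `L`
-/

set_option autoImplicit false
set_option linter.unusedSectionVars false

namespace Pool.Agent.Q149.SH

open NumberField IsDedekindDomain Module Pool.Agent.Y18.LC Pool.Agent.Q5.SG Pool.Agent.Q5.SH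
  Pool.Agent.Q92.AR Pool.Agent.Q20.EX
open Pool.Agent.Q53.EX (Pr_mono art_infl ram_top prin_mem_Pr_of_Un)
open Pool.Agent.Q125.AR (Ram_mono mem_under)

/-- JOB SH-BC -/
theorem bc : Pool.Agent.Q5.SH.S_BC := by
  intro K L M _ _ _ _ _ _ _ _ _ ψ hinj N' hN' hRam χ hχ T hT hL v hv
  obtain ⟨Ω, _, _, _, _, _, _, hTM, hTL⟩ := Pool.Agent.Q176.SG.comb K M L
  obtain ⟨N₀, h0, hR0⟩ := Pool.Agent.Q280.AR.rF K Ω
  -- the modulus
  set NT : ℕ := ∏ t ∈ T, Ideal.absNorm t.asIdeal with hNT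
  have hNT0 : NT ≠ 0 := by
    rw [hNT, Finset.prod_ne_zero_iff]
    intro t _ h
    exact t.ne_bot (Ideal.absNorm_eq_zero_iff.1 h)
  have hNTt : ∀ t ∈ T, (NT : 𝓞 K) ∈ t.asIdeal := by
    intro t ht
    obtain ⟨k, hk⟩ := Finset.dvd_prod_of_mem (fun t : HeightOneSpectrum (𝓞 K) =>
      Ideal.absNorm t.asIdeal) ht
    rw [hNT, hk, Nat.cast_mul]
    exact t.asIdeal.mul_mem_right _ (Ideal.absNorm_mem _)
  set N : ℕ := N' * NT * N₀ with hN
  have hNne : N ≠ 0 := mul_ne_zero (mul_ne_zero hN' hNT0) h0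
  have e1 : N' ∣ N := ⟨NT * N₀, by rw [hN]; ring⟩
  have e2 : NT ∣ N := ⟨N' * N₀, by rw [hN]; ring⟩
  have e3 : N₀ ∣ N := ⟨N' * NT, by rw [hN]; ring⟩
  have hRK : Ram K Ω N := Ram_mono e3 hR0
  have hRL : Ram L Ω N := ram_top (K := K) hRK
  -- the characters
  let ψΩ : (Ω ≃ₐ[K] Ω) →* ℂˣ := ψ.comp (AlgEquiv.restrictNormalHom (K₁ := Ω) M)
  have hG : IsGalois L Ω := IsGalois.tower_top_of_isGalois K L Ω
  have hNm := Pool.Agent.Q106.AR.nm K L
  have htriv : TrivAt Set.univ N (art (ψΩ.comp (rs K L Ω))) := by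
    intro x hx _ _
    have hxP : prin x ∈ Pr L N := prin_mem_Pr_of_Un hx
    rw [Pool.Agent.Q275.EX.res K L Ω ψΩ N hNne hRK (prin x) hxP, hNm.1 x]
    have hnP : prin (nu K L x) ∈ Pr K N := by
      rw [← hNm.1 x]
      exact hNm.2.2.2.1 N _ hxP
    rw [art_infl Pool.Agent.Q225.AR.fr K M Ω hRK ψ _ (fun g => rfl) hnP, hχ _ (Pr_mono e1 hnP)]
    refine hT _ (hL x fun w hw => hx w ?_)
    rw [← mem_under (F := K)]
    obtain ⟨k, hk⟩ := e2
    rw [hk, Nat.cast_mul]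
    exact (w.under (𝓞 K)).asIdeal.mul_mem_right _ (hNTt _ hw)
  have hun := Pool.Agent.Q53.EX.unr Pool.Agent.Q38.EX.nrm Pool.Agent.Q285.EX.ncg
    Pool.Agent.Q111.EX.good L Ω (ψΩ.comp (rs K L Ω)) N hNne hRL htriv
  refine Pool.Agent.Q111.EX.unram_of_inert (M := Ω) v fun W hW g hg y => ?_
  have hgL := hv Ω W hW g hg
  let g' : Ω ≃ₐ[L] Ω := { g.toRingEquiv with commutes' := hgL }
  have h1 : ψΩ (rs K L Ω g') = 1 := hun W g' hg
  have h2 : rs K L Ω g' = g := by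
    ext z
    rfl
  rw [h2] at h1
  have h3 : AlgEquiv.restrictNormal g M = 1 := hinj (by
    rw [map_one]
    exact h1)
  rw [← AlgEquiv.restrictNormal_commutes, h3, AlgEquiv.one_apply]

end Pool.Agent.Q149.SH
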