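import Pool.Agent.Q149.SH.SELa
import Pool.Agent.Q5.SH.Base

/-! # Project SH (helper5), job SH-SEL -/

set_option autoImplicit false

namespace Pool.Agent.Q149.SH

open Pool.Agent.Q5.SH

/-- JOB SH-SEL -/
theorem sel : Pool.Agent.Q5.SH.J_SEL := sel0 b_CB b_XF b_NR

end Pool.Agent.Q149.SH
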