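import Pool.Agent.Q5.SH.Stm
import Pool.Agent.Q65.SG.TG

/-!
# Project SH (helper5), job SH-SEL: selection of a prime (with the statements of SG as hypotheses)
-/

set_option autoImplicit false
set_option linter.unusedSectionVars false

namespace Pool.Agent.Q149.SH

open NumberField IsDedekindDomain Module Pool.Agent.Y18.LC Pool.Agent.Q5.SG Pool.Agent.Q5.SH
  Pool.Agent.Q92.AR Pool.Agent.Q65.SG Pool.Agent.Q125.AR

/-- the characters of `Dv / N` separate points if `N` has finite index -/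
theorem sep {A : Type} [AddCommGroup A] (N : AddSubgroup A) (hN : N.index ≠ 0) (D : A)
    (h : ∀ ψ : A →+ Additive ℂˣ, (∀ E ∈ N, ψ E = 0) → ψ D = 0) : D ∈ N := by
  by_contra hnot
  have hF : Finite (A ⧸ N) := by
    have : N.FiniteIndex := ⟨hN⟩
    infer_instance
  have hne : (Multiplicative.ofAdd ((QuotientAddGroup.mk' N) D) : Multiplicative (A ⧸ N)) ≠ 1 := by
    intro h
    have h1 : (QuotientAddGroup.mk' N) D = 0 := Multiplicative.ofAdd.injective h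
    rw [QuotientAddGroup.mk'_apply, QuotientAddGroup.eq_zero_iff] at h1
    exact hnot h1
  have : Finite (Multiplicative (A ⧸ N)) := hF
  obtain ⟨ψ, hψ⟩ := CommGroup.exists_apply_ne_one_of_hasEnoughRootsOfUnity
    (Multiplicative (A ⧸ N)) ℂ hne
  let χ : A →+ Additive ℂˣ := (MonoidHom.toAdditiveRight ψ).comp (QuotientAddGroup.mk' N)
  have hχD := h χ (by
    intro x hx
    have h1 : (QuotientAddGroup.mk' N) x = 0 := by
      rw [QuotientAddGroup.mk'_apply, QuotientAddGroup.eq_zero_iff]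
      exact hx
    change (MonoidHom.toAdditiveRight ψ) ((QuotientAddGroup.mk' N) x) = 0
    rw [h1, map_zero])
  exact hψ hχD

theorem art_inv {F E : Type} [Field F] [NumberField F] [Field E] [NumberField E] [Algebra F E]
    (ψ : (E ≃ₐ[F] E) →* ℂˣ) (D : Dv F) : art ψ⁻¹ D = - art ψ D := by
  have h : art (ψ⁻¹ * ψ) D = art ψ⁻¹ D + art ψ D := art_mul _ _ _
  have h0 : ψ⁻¹ * ψ = 1 := by
    ext g
    rw [MonoidHom.mul_apply, MonoidHom.inv_apply, inv_mul_cancel, MonoidHom.one_apply]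
  rw [h0, art_one] at h
  exact eq_neg_of_add_eq_zero_left h.symm

/-- the group of the characters of `Gal(M/K)` which come from characters of `Dv / NQ` -/
noncomputable def XX {p : ℕ} [Fact p.Prime] {K : Type} [Field K] [NumberField K]
    (S : Set (K →+* ℂ_[p])) (T : Finset (HeightOneSpectrum (𝓞 K))) (χ : Dv K →+ Additive ℂˣ)
    (M : Type) [Field M] [NumberField M] [Algebra K M] (N' : ℕ) :
    Subgroup ((M ≃ₐ[K] M) →* ℂˣ) where
  carrier := {ψ | ∃ ψ₀ : Dv K →+ Additive ℂˣ, (∀ D ∈ NQ S T χ, ψ₀ D = 0) ∧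
    ∀ D ∈ Pr K N', art ψ D = ψ₀ D}
  mul_mem' := by
    rintro a b ⟨a₀, ha, ha'⟩ ⟨b₀, hb, hb'⟩
    refine ⟨a₀ + b₀, fun D hD => ?_, fun D hD => ?_⟩
    · rw [AddMonoidHom.add_apply, ha D hD, hb D hD, add_zero]
    · rw [AddMonoidHom.add_apply, art_mul, ha' D hD, hb' D hD]
  one_mem' := ⟨0, fun D _ => rfl, fun D _ => by rw [art_one]; rfl⟩
  inv_mem' := by
    rintro a ⟨a₀, ha, ha'⟩
    refine ⟨-a₀, fun D hD => ?_, fun D hD => ?_⟩
    · rw [AddMonoidHom.neg_apply, ha D hD, neg_zero]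
    · rw [AddMonoidHom.neg_apply, art_inv, ha' D hD]

theorem sel0 (hCB : S_CB) (hXF : S_XF) (hNR : S_NR) : J_SEL := by
  intro hFI hKS hMV hNC hDU hKV p hp hp2 K _ _ hU S hS m hm hmS T χ hχ hpT e he D B hB
  have hpp : p.Prime := hp.out
  obtain ⟨hidx, N, hN0, hN⟩ := hFI p K S T χ hχ
  obtain ⟨⟨X, hX⟩, K', _, _, _, ζ₀, r₀, hζ₀, hr₀⟩ := hKS K T (p ^ m) (pow_pos hpp.pos m)
  obtain ⟨M, _, _, _, _, _, _, N', hN', hNN, hRam, hχM⟩ := hXF K K' N hN0
  have hζ : IsPrimitiveRoot (algebraMap K' M ζ₀) (p ^ m) :=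
    hζ₀.map_of_injective (algebraMap K' M).injective
  have hr : ∀ b ∈ BT T (p ^ m), (algebraMap K' M (r₀ b)) ^ p ^ m = algebraMap K M (b : K) := by
    intro b hb
    rw [← map_pow, hr₀ b hb, ← IsScalarTower.algebraMap_apply]
  set ζ : M := algebraMap K' M ζ₀ with hζdef
  -- the group of characters
  have hX₁ : ∀ ψ ∈ XX S T χ M N', (∀ g : M ≃ₐ[K] M, g ζ = ζ → ψ g = 1) → ψ = 1 := by
    rintro ψ ⟨ψ₀, hψ₀, hψ⟩ htriv
    have h0 := hNC p hp2 K M hU S hS m hm hmS T χ hχ hpT ζ hζ N' hN' hRam ψ₀ hψ₀ ψ hψ htriv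
    ext g
    obtain ⟨v, hvB, -, hunr, hfr⟩ := hCB K M g {v | (N' : 𝓞 K) ∈ v.asIdeal} (finite_dvd hN')
    have hsing : (Finsupp.single v 1 : Dv K) ∈ Pr K N' := by
      classical
      intro w hw
      rw [Finsupp.single_apply, if_neg]
      rintro rfl
      exact hvB hw
    have h1 := hψ _ hsing
    rw [h0, art_single, one_smul, chi_frob hunr (frob_spec v) hfr ψ] at h1
    have h2 : ψ g = 1 := h1
    rw [h2, MonoidHom.one_apply]
  -- the automorphism belonging to `D`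
  obtain ⟨D', hD'P, hD'⟩ := hMV p K S T χ hχ N' hN' D
  have hfd : FiniteDimensional K M := Module.Finite.of_restrictScalars_finite ℚ K M
  obtain ⟨g₀, -, hg₀⟩ := dual (G := M ≃ₐ[K] M) ⊤ (artEv M D') (by
    intro ψ hψ
    have h1 : ψ = 1 := by
      ext g
      rw [hψ g (Subgroup.mem_top g)]
      rfl
    rw [h1, map_one])
  -- a primitive root of unity in `ℂ`
  obtain ⟨ξ, hξ⟩ : ∃ ξ : ℂˣ, IsPrimitiveRoot ξ (p ^ m) := by
    have h1 := Complex.isPrimitiveRoot_exp (p ^ m) (pow_ne_zero m hpp.ne_zero)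
    obtain ⟨u, hu⟩ := h1.isUnit (pow_ne_zero m hpp.ne_zero)
    refine ⟨u, ?_⟩
    rw [← IsPrimitiveRoot.coe_units_iff, hu]
    exact h1
  obtain ⟨g, hgζ, hgX, hgr⟩ := hDU p hp2 K M hU m hm ζ hζ (BT T (p ^ m))
    (fun b => algebraMap K' M (r₀ b)) hr (XX S T χ M N') hX₁ ξ hξ e he g₀
  -- the prime
  obtain ⟨v, hvB, hvp, hunr, hfr⟩ := hCB K M g
    (B ∪ (T : Set (HeightOneSpectrum (𝓞 K))) ∪ {v | (N' : 𝓞 K) ∈ v.asIdeal} ∪
      {v | (p : 𝓞 K) ∈ v.asIdeal} ∪ {𝔮 : HeightOneSpectrum (𝓞 K) |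
        (Ideal.absNorm 𝔮.asIdeal).Prime ∧ ¬ Unram K (Ideal.absNorm 𝔮.asIdeal)} ∪
      ⋃ x ∈ X, ((prin x).support : Set (HeightOneSpectrum (𝓞 K)))) (by
        refine ((((hB.union T.finite_toSet).union (finite_dvd hN')).union
          (finite_dvd hpp.ne_zero)).union (hNR K)).union ?_
        exact X.finite_toSet.biUnion fun x _ => (prin x).support.finite_toSet)
  have hv1 : v ∉ B := fun h => hvB (Or.inl (Or.inl (Or.inl (Or.inl (Or.inl h)))))
  have hv2 : v ∉ T := fun h => hvB (Or.inl (Or.inl (Or.inl (Or.inl (Or.inr h)))))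
  have hv3 : (N' : 𝓞 K) ∉ v.asIdeal := fun h => hvB (Or.inl (Or.inl (Or.inl (Or.inr h))))
  have hv4 : (p : 𝓞 K) ∉ v.asIdeal := fun h => hvB (Or.inl (Or.inl (Or.inr h)))
  have hv5 : Unram K (Ideal.absNorm v.asIdeal) := by
    by_contra h
    exact hvB (Or.inl (Or.inr ⟨hvp, h⟩))
  have hv6 : ∀ x ∈ X, x ∈ UnitAt v := by
    intro x hx
    rw [mem_UnitAt, valuation_eq_exp]
    have h1 : prin x v = 0 := by
      by_contra h
      refine hvB (Or.inr (Set.mem_biUnion (s := (X : Set Kˣ)) hx ?_))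
      exact Finsupp.mem_support_iff.2 h
    rw [h1, neg_zero, WithZero.exp_zero]
  obtain ⟨-, κ, hκ1, hκ2, hκ3, hκ4⟩ := hKV p K M m hm ζ hζ (BT T (p ^ m))
    (fun b => algebraMap K' M (r₀ b)) hr X hX ξ hξ e he g hgζ hgr v hvp hv4 hv6 hunr hfr
  refine ⟨v, hv1, hv2, hvp, hv5, hv4, ?_, κ, hκ1, hκ2, hκ3, hκ4⟩
  -- the class of `v`
  refine sep _ hidx _ fun ψ₀ hψ₀ => ?_
  have hsing : (Finsupp.single v 1 : Dv K) ∈ Pr K N' := by
    classical
    intro w hw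
    rw [Finsupp.single_apply, if_neg]
    rintro rfl
    exact hv3 hw
  obtain ⟨ψ, hψ⟩ := hχM ψ₀ (by
    intro x hx
    refine hψ₀ _ ?_
    rw [mem_NQ]
    exact ⟨x, hN x hx, 0, 0, zero_mem _, by rw [smul_zero, add_zero, add_zero]⟩)
  have hψX : ψ ∈ XX S T χ M N' := ⟨ψ₀, hψ₀, hψ⟩
  have h1 : ψ₀ (Finsupp.single v 1) = Additive.ofMul (ψ g) := by
    rw [← hψ _ hsing, art_single, one_smul, chi_frob hunr (frob_spec v) hfr ψ]
  have h2 : ψ₀ D' = Additive.ofMul (ψ g₀) := by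
    rw [← hψ _ hD'P, hg₀ ψ]
    rfl
  have h3 : ψ₀ D' = ψ₀ D := by
    have h4 := hψ₀ _ hD'
    rw [map_sub, sub_eq_zero] at h4
    exact h4.symm
  rw [map_sub, h1, hgX ψ hψX, ← h2, h3, sub_self]

end Pool.Agent.Q149.SH
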